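import Pool.Agent.H916N.Link

/-!
# Fermat varieties over finite fields: orders of the zeta function and Chow groups

Let `m` be prime to the prime `p` and not divisible by four, let `l` be a prime congruent to three
modulo four and `m = l ^ a * m'` with `m'` prime to `l`. Suppose that any two different odd primes
dividing `m` are squares modulo each other, that `p` is a square modulo every odd prime dividing `m`
and that `-1` is a power of `p` modulo `m'`. Then every Tate character of degree `m` in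
characteristic `p` becomes, after raising the degree to a suitable multiple prime to `p`, a member of
the closure of the characters of surfaces and of the standard characters of Aoki.
-/

namespace Pool.Agent.Results.MP_666bea_ag.FermatZetaOrders

open Pool.Agent.H916T

theorem result (p m : ℕ) (hp : p.Prime) (hm4 : ¬ 4 ∣ m) (hpm : p.Coprime m)
    (hQR : ∀ q r : ℕ, q.Prime → r.Prime → Odd q → Odd r → q ∣ m → r ∣ m → q ≠ r →
      IsSquare ((q : ℕ) : ZMod r))
    (hsq : ∀ q : ℕ, q.Prime → Odd q → q ∣ m → IsSquare ((p : ℕ) : ZMod q))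
    (l a m' : ℕ) (hl : l.Prime) (hl3 : l % 4 = 3) (hm' : m = l ^ a * m') (hlm : ¬ l ∣ m')
    (hr : ∃ r : ℕ, (p : ZMod m') ^ r = -1)
    (s : Multiset (ZMod m)) (hs : IsTate p m s) (hne : s ≠ 0) :
    ∃ N : ℕ, 0 < N ∧ p.Coprime N ∧
      Generated (N * m)
        (fun t => SurfaceTate p (N * m) t ∨ ∃ q : ℕ, q.Prime ∧ q ∣ N * m ∧ Standard q (N * m) t)
        (s.map fun a => ((N * a.val : ℕ) : ZMod (N * m))) := by
  obtain ⟨k, n, hk, hkn, hn2⟩ : ∃ k n : ℕ, (k = 1 ∨ k = 2) ∧ k * n = m ∧ ¬ 2 ∣ n := by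
    by_cases h : 2 ∣ m
    · obtain ⟨n, hn⟩ := h
      refine ⟨2, n, Or.inr rfl, hn.symm, ?_⟩
      rintro ⟨x, hx⟩
      exact hm4 ⟨x, by rw [hn, hx]; ring⟩
    · exact ⟨1, m, Or.inl rfl, one_mul m, h⟩
  have hn : 0 < n := Nat.pos_of_ne_zero (by rintro rfl; exact hn2 (dvd_zero 2))
  have hodd : ∀ q : ℕ, q ∣ n → Odd q := by
    intro q hq
    rw [← Nat.not_even_iff_odd, even_iff_two_dvd]
    exact fun h => hn2 (h.trans hq)
  have hnm : n ∣ m := Dvd.intro_left k hkn
  have hPQR : H916Q.PQR n := by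
    intro q r hq hr hqn hrn hne'
    exact hQR q r hq hr (hodd q hqn) (hodd r hrn) (hqn.trans hnm) (hrn.trans hnm) hne'
  obtain ⟨r, hr⟩ := hr
  obtain ⟨N, hN, hpN, H⟩ := H916N.three_main hp hn hk hkn hn2 hpm hPQR
    (fun q hq hqn => hsq q hq (hodd q hqn) (hqn.trans hnm)) hl hl3 hm'.symm hlm hr hs hne
  exact ⟨N, hN, hpN, H (N * m) rfl⟩

end Pool.Agent.Results.MP_666bea_ag.FermatZetaOrders
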